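import Pool.Agent.Helper58.PB.StS
import Pool.Agent.Helper15.AB.M_GS
import Pool.Agent.Helper23.GK.StG
import Pool.Agent.Helper48.BK.M_Par

/-!
# Project PB, module TA1: Gauss sums
-/

set_option autoImplicit false

namespace Pool.Agent.Helper51.PB

open Finset ArithmeticFunction
open Pool.Agent.Helper58.PB
open Pool.Agent.Helper48.BK (ex ex_int_Par)
open Pool.Agent.Helper23.GK (cR StRam)
open Pool.Agent.Helper23.MV (PCh PS ta StTav)

private theorem ex_add_TA1 (a b : ℝ) : ex (a + b) = ex a * ex b := by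
  unfold ex
  rw [← Complex.exp_add]
  congr 1
  push_cast
  ring

private theorem ex_nat_TA1 (a : ℝ) (k : ℕ) : ex (a + k) = ex a := by
  have h := ex_int_Par (k : ℤ)
  rw [Int.cast_natCast] at h
  rw [ex_add_TA1, h, mul_one]

/-- the residues modulo `R s` -/
private theorem crt_TA1 (R s : ℕ) (hR : 0 < R) (hs : 0 < s) (h : Nat.Coprime R s) (f : ℕ → ℂ)
    (hf : ∀ b, f (b % (R * s)) = f b) :
    ∑ b ∈ (range (R * s)).filter (fun b => Nat.Coprime b (R * s)), f b =
      ∑ b₁ ∈ (range R).filter (fun b => Nat.Coprime b R),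
        ∑ b₂ ∈ (range s).filter (fun b => Nat.Coprime b s), f (b₁ * s + b₂ * R) := by
  have hm : 0 < R * s := Nat.mul_pos hR hs
  have hinj : Set.InjOn (fun p : ℕ × ℕ => (p.1 * s + p.2 * R) % (R * s))
      (((range R).filter (fun b => Nat.Coprime b R) ×ˢ
        (range s).filter (fun b => Nat.Coprime b s) : Finset (ℕ × ℕ)) : Set (ℕ × ℕ)) := by
    rintro ⟨a, b⟩ hab ⟨a', b'⟩ hab' he
    rw [Finset.mem_coe, Finset.mem_product, Finset.mem_filter, Finset.mem_filter,
      Finset.mem_range, Finset.mem_range] at hab hab'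
    have he' : a * s + b * R ≡ a' * s + b' * R [MOD R * s] := he
    have e1 : a * s ≡ a' * s [MOD R] := by
      have h1 := he'.of_mul_right s
      unfold Nat.ModEq at h1 ⊢
      rwa [Nat.add_mul_mod_self_right, Nat.add_mul_mod_self_right] at h1
    have e2 : b * R ≡ b' * R [MOD s] := by
      have h1 := he'.of_mul_left R
      unfold Nat.ModEq at h1 ⊢
      rwa [add_comm, Nat.add_mul_mod_self_right, add_comm, Nat.add_mul_mod_self_right] at h1
    have e3 := Nat.ModEq.cancel_right_of_coprime (by exact h) e1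
    have e4 := Nat.ModEq.cancel_right_of_coprime (by exact h.symm) e2
    rw [Prod.mk.injEq]
    exact ⟨e3.eq_of_lt_of_lt hab.1.1 hab'.1.1, e4.eq_of_lt_of_lt hab.2.1 hab'.2.1⟩
  have hU : ∀ n : ℕ, ((range n).filter (fun b => Nat.Coprime b n)).card = Nat.totient n := by
    intro n
    rw [Nat.totient_eq_card_coprime]
    congr 1
    ext b
    rw [Finset.mem_filter, Finset.mem_filter, Nat.coprime_comm]
  have himg : ((range R).filter (fun b => Nat.Coprime b R) ×ˢ
      (range s).filter (fun b => Nat.Coprime b s)).image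
        (fun p : ℕ × ℕ => (p.1 * s + p.2 * R) % (R * s)) =
      (range (R * s)).filter (fun b => Nat.Coprime b (R * s)) := by
    refine Finset.eq_of_subset_of_card_le ?_ ?_
    · intro x hx
      rw [Finset.mem_image] at hx
      obtain ⟨⟨a, b⟩, hab, rfl⟩ := hx
      rw [Finset.mem_product, Finset.mem_filter, Finset.mem_filter] at hab
      rw [Finset.mem_filter, Finset.mem_range]
      refine ⟨Nat.mod_lt _ hm, ?_⟩
      show Nat.gcd ((a * s + b * R) % (R * s)) (R * s) = 1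
      rw [(Nat.mod_modEq (a * s + b * R) (R * s)).gcd_eq]
      apply Nat.Coprime.mul_right
      · rw [Nat.coprime_add_mul_right_left]
        exact Nat.Coprime.mul_left hab.1.2 h.symm
      · rw [add_comm, Nat.coprime_add_mul_right_left]
        exact Nat.Coprime.mul_left hab.2.2 h
    · rw [Finset.card_image_of_injOn hinj, Finset.card_product, hU, hU, hU, Nat.totient_mul h]
  rw [← himg, Finset.sum_image hinj, ← Finset.sum_product']
  exact Finset.sum_congr rfl fun p _ => hf _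

private theorem ev_mod_TA1 (c : PCh) (m : ℕ) (hm : c.r ∣ m) (b : ℕ) :
    c.ev (b % m) = c.ev b := by
  unfold PCh.ev
  congr 1
  rw [ZMod.natCast_eq_natCast_iff]
  exact (Nat.mod_modEq b m).of_dvd hm

private theorem ev_crt_TA1 (c : PCh) (R s : ℕ) (hR : c.r ∣ R) (a b : ℕ) :
    c.ev (a * s + b * R) = c.ev a * c.ev s := by
  unfold PCh.ev
  rw [← map_mul, ← Nat.cast_mul]
  congr 1
  rw [ZMod.natCast_eq_natCast_iff]
  have h1 : a * s + b * R ≡ a * s [MOD R] := by
    unfold Nat.ModEq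
    rw [Nat.add_mul_mod_self_right]
  exact h1.of_dvd hR

private theorem mod_real_TA1 (m : ℕ) (hm : 0 < m) (b N : ℕ) :
    (b : ℝ) * N / m = ((b % m : ℕ) : ℝ) * N / m + ((b / m * N : ℕ) : ℝ) := by
  have h1 : ((b % m : ℕ) : ℝ) + (m : ℝ) * ((b / m : ℕ) : ℝ) = (b : ℝ) := by
    exact_mod_cast Nat.mod_add_div b m
  have hm0 : (m : ℝ) ≠ 0 := by exact_mod_cast hm.ne'
  rw [Nat.cast_mul, ← h1]
  field_simp

/-- `∑ e(b/s) = μ(s)` -/
private theorem mu_TA1 (hRam : StRam) (s : ℕ) (hs : 1 ≤ s) :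
    ∑ b ∈ (range s).filter (fun b => Nat.Coprime b s), ex ((b : ℝ) / s) =
      ((ArithmeticFunction.moebius s : ℤ) : ℂ) := by
  have h1 := hRam.1 s 1 hs
  have h2 : cR s 1 = ArithmeticFunction.moebius s := by
    unfold cR
    have h3 : s.divisors.filter (fun d : ℕ => (d : ℤ) ∣ 1) = {1} := by
      ext d
      rw [Finset.mem_filter, Nat.mem_divisors, Finset.mem_singleton]
      constructor
      · rintro ⟨_, h⟩
        have : (d : ℤ) ∣ ((1 : ℕ) : ℤ) := by simpa using h
        exact Nat.dvd_one.1 (Int.natCast_dvd_natCast.1 this)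
      · rintro rfl
        exact ⟨⟨one_dvd _, by omega⟩, by simp⟩
    rw [h3, Finset.sum_singleton]
    simp
  rw [h2] at h1
  rw [h1]
  refine Finset.sum_congr rfl fun b _ => ?_
  congr 1
  push_cast
  ring

private theorem ta_TA1 (hRam : StRam) (c : PCh) (R s : ℕ) (hcR : c.r ∣ R) (hR : 0 < R) (hs : 0 < s)
    (h : Nat.Coprime R s) :
    ta c (R * s) = (starRingEnd ℂ) (c.ev s) * ((ArithmeticFunction.moebius s : ℤ) : ℂ) *
      ta c R := by
  have hm : 0 < R * s := Nat.mul_pos hR hs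
  have hR0 : (R : ℝ) ≠ 0 := by exact_mod_cast hR.ne'
  have hs0 : (s : ℝ) ≠ 0 := by exact_mod_cast hs.ne'
  unfold ta
  rw [crt_TA1 R s hR hs h (fun b => (starRingEnd ℂ) (c.ev b) * ex ((b : ℝ) / ((R * s : ℕ) : ℝ)))
    (by
      intro b
      rw [ev_mod_TA1 c (R * s) (hcR.mul_right s)]
      congr 1
      have h1 := mod_real_TA1 (R * s) hm b 1
      rw [Nat.cast_one, mul_one, mul_one, mul_one] at h1
      rw [h1, ex_nat_TA1])]
  rw [← mu_TA1 hRam s hs, Finset.mul_sum]
  refine Finset.sum_congr rfl fun b₁ _ => ?_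
  rw [Finset.mul_sum, Finset.sum_mul]
  refine Finset.sum_congr rfl fun b₂ _ => ?_
  rw [ev_crt_TA1 c R s hcR, map_mul]
  have h2 : ((b₁ * s + b₂ * R : ℕ) : ℝ) / ((R * s : ℕ) : ℝ) = (b₁ : ℝ) / R + (b₂ : ℝ) / s := by
    push_cast
    field_simp
  rw [h2, ex_add_TA1]
  ring

private theorem sumRange_TA1 {R : ℕ} [NeZero R] (G : ZMod R → ℂ) :
    ∑ b ∈ Finset.range R, G (b : ZMod R) = ∑ x : ZMod R, G x := by
  apply Finset.sum_nbij (fun b : ℕ => (b : ZMod R))
  · intro b _
    exact Finset.mem_univ _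
  · intro b hb b' hb' h
    have h1 : ((b : ℕ) : ZMod R).val = ((b' : ℕ) : ZMod R).val := congrArg ZMod.val h
    rw [ZMod.val_natCast, ZMod.val_natCast,
      Nat.mod_eq_of_lt (Finset.mem_range.mp hb), Nat.mod_eq_of_lt (Finset.mem_range.mp hb')] at h1
    exact h1
  · intro x _
    exact ⟨x.val, by simpa using ZMod.val_lt x, ZMod.natCast_zmod_val x⟩
  · intro b _
    rfl

private theorem ex_TA1 {R : ℕ} [NeZero R] (b : ℕ) :
    (ZMod.stdAddChar (N := R) (b : ZMod R) : ℂ) = ex ((b : ℝ) / R) := by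
  have h := ZMod.stdAddChar_coe (N := R) (b : ℤ)
  rw [Int.cast_natCast] at h
  rw [h]
  unfold ex
  congr 1
  push_cast
  ring

private theorem prod_le_TA1 (S : Finset ℕ) : (∀ p ∈ S, 2 ≤ p) → ∏ p ∈ S, p ≤ (S.card + 1) * ∏ p ∈ S, (p - 1) := by
  induction S using Finset.induction_on_max with
  | empty => simp
  | insert m S hm ih =>
    intro h2
    have hmS : m ∉ S := fun h => lt_irrefl _ (hm m h)
    rw [prod_insert hmS, prod_insert hmS, card_insert_of_notMem hmS]
    have ih' := ih fun p hp => h2 p (mem_insert_of_mem hp)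
    have hm2 : 2 ≤ m := h2 m (mem_insert_self _ _)
    have hcard : S.card + 2 ≤ m := by
      have : S ⊆ Ico 2 m := by
        intro p hp
        rw [mem_Ico]
        exact ⟨h2 p (mem_insert_of_mem hp), hm p hp⟩
      have := card_le_card this
      rw [Nat.card_Ico] at this
      omega
    obtain ⟨k, rfl⟩ : ∃ k, m = k + 1 := ⟨m - 1, by omega⟩
    rw [Nat.add_sub_cancel]
    have h3 : (k + 1) * (S.card + 1) ≤ (S.card + 1 + 1) * k := by nlinarith
    calc (k + 1) * ∏ p ∈ S, p ≤ (k + 1) * ((S.card + 1) * ∏ p ∈ S, (p - 1)) :=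
          Nat.mul_le_mul_left _ ih'
      _ = ((k + 1) * (S.card + 1)) * ∏ p ∈ S, (p - 1) := by ring
      _ ≤ ((S.card + 1 + 1) * k) * ∏ p ∈ S, (p - 1) := Nat.mul_le_mul_right _ h3
      _ = _ := by ring

private theorem tot_TA1 (r : ℕ) : r ≤ (r.primeFactors.card + 1) * r.totient := by
  have h1 := Nat.totient_mul_prod_primeFactors r
  have h2 := prod_le_TA1 r.primeFactors fun p hp => (Nat.prime_of_mem_primeFactors hp).two_le
  have h3 : 0 < ∏ p ∈ r.primeFactors, (p - 1) := by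
    apply Finset.prod_pos
    intro p hp
    have := (Nat.prime_of_mem_primeFactors hp).two_le
    omega
  have h4 : r * ∏ p ∈ r.primeFactors, (p - 1) ≤
      ((r.primeFactors.card + 1) * r.totient) * ∏ p ∈ r.primeFactors, (p - 1) := by
    rw [← h1]
    calc r.totient * ∏ p ∈ r.primeFactors, p ≤
          r.totient * ((r.primeFactors.card + 1) * ∏ p ∈ r.primeFactors, (p - 1)) :=
          Nat.mul_le_mul_left _ h2
      _ = _ := by ring
  exact Nat.le_of_mul_le_mul_right h4 h3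

private theorem two_pow_le_TA1 (r : ℕ) (hr : r ≠ 0) : 2 ^ r.primeFactors.card ≤ r := by
  calc 2 ^ r.primeFactors.card = ∏ p ∈ r.primeFactors, 2 := by rw [prod_const]
    _ ≤ ∏ p ∈ r.primeFactors, p :=
        Finset.prod_le_prod (fun _ _ => Nat.zero_le _)
          fun p hp => (Nat.prime_of_mem_primeFactors hp).two_le
    _ ≤ r := Nat.le_of_dvd (Nat.pos_of_ne_zero hr) (Nat.prod_primeFactors_dvd r)


private theorem gauss_TA1 (c : PCh) : ta c c.r = gaussSum c.χ⁻¹ (ZMod.stdAddChar (N := c.r)) := by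
  have hinv : ∀ (χ : DirichletCharacter ℂ c.r) (x : ZMod c.r), χ⁻¹ x = (starRingEnd ℂ) (χ x) := by
    intro χ x
    have h := MulChar.star_apply' χ x
    rw [← h]
    rfl
  unfold ta gaussSum
  rw [← sumRange_TA1, Finset.sum_filter]
  apply Finset.sum_congr rfl
  intro b _
  rw [hinv, ex_TA1]
  by_cases hb : Nat.Coprime b c.r
  · rw [if_pos hb]
    rfl
  · rw [if_neg hb]
    have h0 : c.χ (b : ZMod c.r) = 0 := by
      apply MulChar.map_nonunit
      rw [ZMod.isUnit_iff_coprime]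
      exact hb
    rw [h0]
    simp

private theorem norm_TA1 (c : PCh) : ‖ta c c.r‖ ^ 2 = c.r := by
  rw [gauss_TA1]
  exact Pool.Agent.Helper15.AB.GS.norm_gauss (Pool.Agent.Helper15.AB.GS.primitive_inv c.prim)

private theorem evle_TA1 (c : PCh) (n : ℕ) : ‖c.ev n‖ ≤ 1 := by
  unfold PCh.ev
  exact DirichletCharacter.norm_le_one c.χ _

private theorem norm_ex_TA1 (t : ℝ) : ‖ex t‖ = 1 := by
  unfold ex
  rw [Complex.norm_exp]
  simp

private theorem ta_le_TA1 (c : PCh) (q : ℕ) : ‖ta c q‖ ≤ Nat.totient q := by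
  unfold ta
  refine (norm_sum_le _ _).trans ?_
  have h1 : ∀ b ∈ (range q).filter (fun b => Nat.Coprime b q),
      ‖(starRingEnd ℂ) (c.ev b) * ex ((b : ℝ) / q)‖ ≤ 1 := by
    intro b _
    rw [norm_mul, norm_ex_TA1, mul_one, RCLike.norm_conj]
    exact evle_TA1 c b
  refine (Finset.sum_le_sum h1).trans ?_
  rw [Finset.sum_const, nsmul_eq_mul, mul_one]
  have hU : ((range q).filter (fun b => Nat.Coprime b q)).card = Nat.totient q := by
    rw [Nat.totient_eq_card_coprime]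
    congr 1
    ext b
    rw [Finset.mem_filter, Finset.mem_filter, Nat.coprime_comm]
  rw [hU]

private theorem phi_TA1 (q : ℕ) (hq : 1 ≤ q) : (q : ℝ) ^ (9 / 10 : ℝ) ≤ 20 * Nat.totient q := by
  have hq0 : (0 : ℝ) < q := by exact_mod_cast hq
  have h1 := tot_TA1 q
  have h2 := two_pow_le_TA1 q (by omega)
  set w := q.primeFactors.card with hw
  have h3 : (w : ℝ) * Real.log 2 ≤ Real.log q := by
    have h4 : Real.log ((2 : ℝ) ^ w) ≤ Real.log q := by
      apply Real.log_le_log (by positivity)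
      exact_mod_cast h2
    rwa [Real.log_pow] at h4
  have h5 : Real.log q ≤ (q : ℝ) ^ (1 / 10 : ℝ) / (1 / 10) := Real.log_le_rpow_div hq0.le (by norm_num)
  have h6 : (1 : ℝ) ≤ (q : ℝ) ^ (1 / 10 : ℝ) :=
    Real.one_le_rpow (by exact_mod_cast hq) (by norm_num)
  have h7 : (0.6931471803 : ℝ) < Real.log 2 := Real.log_two_gt_d9
  have h8 : (w : ℝ) + 1 ≤ 20 * (q : ℝ) ^ (1 / 10 : ℝ) := by
    have h9 : (w : ℝ) * 0.6931471803 ≤ (w : ℝ) * Real.log 2 :=
      mul_le_mul_of_nonneg_left h7.le (by positivity)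
    have h10 : (w : ℝ) * 0.6931471803 ≤ 10 * (q : ℝ) ^ (1 / 10 : ℝ) := by
      calc (w : ℝ) * 0.6931471803 ≤ _ := h9
        _ ≤ Real.log q := h3
        _ ≤ (q : ℝ) ^ (1 / 10 : ℝ) / (1 / 10) := h5
        _ = 10 * (q : ℝ) ^ (1 / 10 : ℝ) := by ring
    linarith
  have h11 : (q : ℝ) ≤ ((w : ℝ) + 1) * Nat.totient q := by
    exact_mod_cast h1
  have h12 : (q : ℝ) = (q : ℝ) ^ (9 / 10 : ℝ) * (q : ℝ) ^ (1 / 10 : ℝ) := by
    rw [← Real.rpow_add hq0]
    norm_num
  have h13 : (q : ℝ) ^ (9 / 10 : ℝ) * (q : ℝ) ^ (1 / 10 : ℝ) ≤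
      (20 * Nat.totient q) * (q : ℝ) ^ (1 / 10 : ℝ) := by
    rw [← h12]
    calc (q : ℝ) ≤ ((w : ℝ) + 1) * Nat.totient q := h11
      _ ≤ (20 * (q : ℝ) ^ (1 / 10 : ℝ)) * Nat.totient q :=
          mul_le_mul_of_nonneg_right h8 (by positivity)
      _ = _ := by ring
  exact le_of_mul_le_mul_right h13 (by linarith)

theorem hTa1 : StTav → StRam → StTa1 := by
  intro hTav hRam
  have hfirst : ∀ (c : PCh) (s : ℕ), 1 ≤ s → Squarefree s → Nat.Coprime s c.r →
      ta c (c.r * s) = (starRingEnd ℂ) (c.ev s) * ((moebius s : ℤ) : ℂ) * ta c c.r := by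
    intro c s hs _ hco
    exact ta_TA1 hRam c c.r s dvd_rfl (Nat.pos_of_ne_zero c.hr) hs hco.symm
  refine ⟨hfirst, norm_TA1, 20, by norm_num, ?_⟩
  intro c q a hq hd
  have hφ : (0 : ℝ) < Nat.totient q := by exact_mod_cast Nat.totient_pos.mpr hq
  have hnorm : ‖kap c q a‖ = ‖ta c q‖ * ‖c.ev a‖ / Nat.totient q := by
    unfold kap
    rw [norm_div, norm_mul, Complex.norm_natCast]
  have he := evle_TA1 c a
  have h1 : ‖ta c q‖ * ‖c.ev a‖ ≤ ‖ta c q‖ := by
    have := mul_le_mul_of_nonneg_left he (norm_nonneg (ta c q))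
    rwa [mul_one] at this
  constructor
  · rw [hnorm, div_le_one hφ]
    exact h1.trans (ta_le_TA1 c q)
  · have hq0 : (0 : ℝ) < q := by exact_mod_cast hq
    have h2 : ‖ta c q‖ ≤ √(c.r : ℝ) := by
      by_cases h0 : ta c q = 0
      · rw [h0, norm_zero]
        exact Real.sqrt_nonneg _
      · obtain ⟨hsq, hco⟩ := hTav c q (by omega) hd h0
        obtain ⟨s, rfl⟩ := hd
        have hrpos : 0 < c.r := Nat.pos_of_ne_zero c.hr
        rw [Nat.mul_div_cancel_left s hrpos] at hsq hco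
        have hs : 1 ≤ s := by
          rcases Nat.eq_zero_or_pos s with h | h
          · rw [h, mul_zero] at hq
            omega
          · exact h
        rw [hfirst c s hs hsq hco, norm_mul, norm_mul, RCLike.norm_conj]
        have h3 : ‖((moebius s : ℤ) : ℂ)‖ ≤ 1 := by
          rw [Complex.norm_intCast]
          have := ArithmeticFunction.abs_moebius_le_one (n := s)
          exact_mod_cast this
        have h4 : ‖ta c c.r‖ = √(c.r : ℝ) := by
          rw [← norm_TA1 c, Real.sqrt_sq (norm_nonneg _)]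
        rw [h4]
        have h5 : ‖c.ev s‖ * ‖((moebius s : ℤ) : ℂ)‖ ≤ 1 := by
          have := mul_le_mul (evle_TA1 c s) h3 (norm_nonneg _) zero_le_one
          rwa [one_mul] at this
        calc ‖c.ev s‖ * ‖((moebius s : ℤ) : ℂ)‖ * √(c.r : ℝ) ≤ 1 * √(c.r : ℝ) :=
              mul_le_mul_of_nonneg_right h5 (Real.sqrt_nonneg _)
          _ = √(c.r : ℝ) := one_mul _
    have h6 := phi_TA1 q hq
    have h7 : (q : ℝ) ^ (-(9 / 10) : ℝ) = 1 / (q : ℝ) ^ (9 / 10 : ℝ) := by
      rw [Real.rpow_neg hq0.le, one_div]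
    have h8 : (0 : ℝ) < (q : ℝ) ^ (9 / 10 : ℝ) := Real.rpow_pos_of_pos hq0 _
    rw [hnorm, h7, mul_one_div, div_le_div_iff₀ hφ h8]
    calc ‖ta c q‖ * ‖c.ev a‖ * (q : ℝ) ^ (9 / 10 : ℝ) ≤ √(c.r : ℝ) * (20 * Nat.totient q) :=
          mul_le_mul (h1.trans h2) h6 h8.le (Real.sqrt_nonneg _)
      _ = 20 * √(c.r : ℝ) * Nat.totient q := by ring

end Pool.Agent.Helper51.PB
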